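import Pool.Agent.H77.PM.Targets

/-!
# Row SUBC: the code of an injective sequence is the code of a structure.
-/

set_option autoImplicit false

open Set Filter Topology

namespace Pool.Agent.H21.PM

open Pool.Agent.H77.PM

theorem pf_SUBC : T_SUBC := by
  intro ι ar Z _ S q hq
  let N : Type := ↥(closure (range q))
  have hcomp : CompleteSpace N := isClosed_closure.completeSpace_coe
  let T : MS ι ar Z :=
    { M := N
      f := fun i a => S.f i (fun j => (a j).1)
      cont := fun i => (S.cont i).comp (continuous_pi fun j =>
        continuous_subtype_val.comp (continuous_apply j)) }
  let p : ℕ → T.M := fun j => ⟨q j, subset_closure (mem_range_self j)⟩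
  refine ⟨T, p, ⟨?_, ?_⟩, rfl⟩
  · intro i j hij
    exact hq (congrArg Subtype.val hij)
  · have h : Dense (range p) := by
      refine Subtype.dense_iff.2 ?_
      have hr : Subtype.val '' range p = range q := by
        rw [← range_comp]
        rfl
      intro x hx
      have : x ∈ closure (Subtype.val '' range p) := by
        rw [hr]
        exact hx
      exact this
    exact h

end Pool.Agent.H21.PM
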